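import Mathlib

set_option autoImplicit false

namespace Pool.Agent.Results.MP_93f727_an.Fail

open PowerSeries

/-- q-Pochhammer symbol in a commutative ring. -/
def poch {R : Type} [CommRing R] (α q : R) (n : ℕ) : R := ∏ j ∈ Finset.range n, (1 - α * q ^ j)

/-- Continuous dual q-Hahn polynomials evaluated at `x`, in a commutative ring. -/
def psi {R : Type} [CommRing R] (x a b c q : R) : ℕ → R
  | 0 => 1
  | 1 => 2 * x - (a + b + c - a * b * c)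
  | n + 2 => (2 * x - ((a + b + c) * q ^ (n + 1) +
        a * b * c * q ^ n * (1 - q ^ (n + 1) - q ^ (n + 2)))) * psi x a b c q (n + 1) -
      (1 - q ^ (n + 1)) * ((1 - a * b * q ^ n) * (1 - a * c * q ^ n) * (1 - b * c * q ^ n)) *
        psi x a b c q n

noncomputable def qbin (q : ℝ) (n i : ℕ) : ℝ := poch q q n / (poch q q i * poch q q (n - i))

/-- Askey-Wilson polynomial with fourth parameter the power series variable. -/
noncomputable def AW (x a b c q : ℝ) (n : ℕ) : ℝ⟦X⟧ :=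
  ∑ i ∈ Finset.range (n + 1), C (qbin q n i * (-a) ^ (n - i) * q ^ (n - i).choose 2) *
    (poch (C (b * c * q ^ i)) (C q) (n - i) * poch (C (b * q ^ i) * X) (C q) (n - i) *
      poch (C (c * q ^ i) * X) (C q) (n - i)) *
    (poch (C (a * b * c * q ^ (n + i - 1)) * X) (C q) (n - i))⁻¹ *
    psi (C x) (C b) (C c) X (C q) i

noncomputable def G (x a b c q : ℝ) (n : ℕ) : ℝ⟦X⟧ :=
  PowerSeries.mk fun i => psi x a b c q (i + n) / poch q q i

theorem result : ∃ (n : ℕ) (x a b c q : ℝ), 1 ≤ n ∧ -1 < q ∧ q < 1 ∧ q ≠ 0 ∧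
    G x a b c q n ≠ AW x a b c q n *
      (poch (C a * X) (C q) n * poch (C b * X) (C q) n * poch (C c * X) (C q) n)⁻¹ *
      G x a b c q 0 := by
  refine ⟨1, 0, 1 / 2, 1 / 2, 1 / 2, 1 / 2, le_rfl, by norm_num, by norm_num, by norm_num, ?_⟩
  intro h
  have h1 : (1 - C (1 / 8 : ℝ) * X) * (1 - C (1 / 8 : ℝ) * X)⁻¹ = 1 :=
    PowerSeries.mul_inv_cancel _ (by simp)
  have h2 : ((1 - C (1 / 2 : ℝ) * X) ^ 3) * ((1 - C (1 / 2 : ℝ) * X) ^ 3)⁻¹ = 1 :=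
    PowerSeries.mul_inv_cancel _ (by simp)
  have e1 : poch (C (1 / 2 : ℝ) * X) (C (1 / 2)) 1 * poch (C (1 / 2 : ℝ) * X) (C (1 / 2)) 1 *
      poch (C (1 / 2 : ℝ) * X) (C (1 / 2)) 1 = (1 - C (1 / 2 : ℝ) * X) ^ 3 := by
    simp only [poch, Finset.prod_range_one, pow_zero, mul_one]; ring
  have e2 : AW 0 (1 / 2) (1 / 2) (1 / 2) (1 / 2) 1 =
      C (-3 / 8) * (1 - C (1 / 2 : ℝ) * X) ^ 2 * (1 - C (1 / 8 : ℝ) * X)⁻¹ +
        (C (-1) - C (3 / 4) * X) := by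
    simp only [AW, Finset.sum_range_succ, Finset.sum_range_zero, poch, qbin, psi]
    norm_num
    have a1 : (C (1 / 4 : ℝ) : ℝ⟦X⟧) = C (1 / 2) * C (1 / 2) := by rw [← map_mul]; norm_num
    have a2 : (C (3 / 8 : ℝ) : ℝ⟦X⟧) = C (1 / 2) * (1 - C (1 / 2) * C (1 / 2)) := by
      rw [← map_mul, ← map_one C, ← map_sub, ← map_mul]; norm_num
    have a3 : (C (3 / 4 : ℝ) : ℝ⟦X⟧) = 1 - C (1 / 2) * C (1 / 2) := by
      rw [← map_mul, ← map_one C, ← map_sub]; norm_num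
    have a4 : (C (1 / 2 : ℝ) : ℝ⟦X⟧) + C (1 / 2) = 1 := by rw [← map_add]; norm_num
    rw [a1, a2, a3]
    linear_combination -a4
  rw [e1, e2] at h
  have h3 : G 0 (1 / 2) (1 / 2) (1 / 2) (1 / 2) 1 * ((1 - C (1 / 2 : ℝ) * X) ^ 3 *
      (1 - C (1 / 8 : ℝ) * X)) = (C (-3 / 8) * (1 - C (1 / 2 : ℝ) * X) ^ 2 +
        (C (-1) - C (3 / 4) * X) * (1 - C (1 / 8 : ℝ) * X)) * G 0 (1 / 2) (1 / 2) (1 / 2) (1 / 2) 0 := by
    rw [h]
    linear_combination (G 0 (1 / 2) (1 / 2) (1 / 2) (1 / 2) 0 * C (-3 / 8) *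
      (1 - C (1 / 2 : ℝ) * X) ^ 2) * h1 + (G 0 (1 / 2) (1 / 2) (1 / 2) (1 / 2) 0 *
      (C (-3 / 8) * (1 - C (1 / 2 : ℝ) * X) ^ 2 * (1 - C (1 / 8 : ℝ) * X)⁻¹ +
        (C (-1) - C (3 / 4) * X)) * (1 - C (1 / 8 : ℝ) * X)) * h2
  have h4 := congrArg (coeff 1) h3
  simp only [coeff_one_mul, pow_succ, pow_zero, one_mul, map_mul, map_sub, map_add, map_one,
    coeff_C, coeff_one, coeff_one_X, constantCoeff_C, constantCoeff_X, G, coeff_mk,
    constantCoeff_mk, psi, poch, Finset.prod_range_succ, Finset.prod_range_zero] at h4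
  norm_num at h4

end Pool.Agent.Results.MP_93f727_an.Fail
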